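import Pool.Agent.J6H39.RP.Modular

/-!
# The Birch and Swinnerton-Dyer formula as a convergent product of local densities

Let `A` be an abelian variety of dimension `g` over `ℚ` with good reduction outside the finite set `S`,
`L(A, s) = ∏_{p ∉ S} P_p(p^{-s})^{-1}`, and let `G` be an extension of `A` by a split torus of rank
`ρ` with good reduction outside `S`, for example (`ρ = rank A'(ℚ)`) the extension of Bloch, for which the
formula of Birch and Swinnerton-Dyer is the Tamagawa number formula `τ(G) #Ш(G) = #Pic(G)_tors`.  The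
local densities of `G` over the fields with `p^e` elements are

`δ_e(p) = #G(𝔽_{p^e}) / p^{e dim G} = #A(𝔽_{p^e}) (p^e - 1)^ρ / p^{e (g + ρ)}`.

The product of the `δ_1(p)` is never absolutely convergent, and in the definition of Tamagawa numbers one
has to divide by the values of an L-function (convergence factors).  If the products over `p ≤ X` converge
to a number different from zero, the Riemann hypothesis holds for `L(A, s)` (Goldfeld for elliptic curves
and products in the form of Birch and Swinnerton-Dyer).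

Here the sharp cut-off is replaced by the rotated kernel `K(u) = e^{icu} / Γ(1 + u)`, `c > π/2`,
`u = log p / log X`.  For EVERY abelian variety `A`, without any hypothesis on the zeros of `L(A, s)`,
real or complex, and without convergence factors:

* if `F` is a meromorphic continuation of `L(A, s)` to a neighbourhood of `[1, 3/2]`, `r` its order and `L`
  its leading coefficient at `s = 1`, `v = ∏_{p ∈ S} (1 - 1/p)`, `Λ = ∫_0^∞ (e^{-t} - K(t)) dt/t`, then
  `exp ∑_{p ∉ S} (K(u) log δ_1(p) + (K(2u) - K(u)) log δ_2(p) / 2)` is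
  `(log X)^{r-ρ} (e^{-(r-ρ)Λ} / (L v^ρ) + O(1 / log X))`;
* conversely such an asymptotic formula along one sequence `X_n → ∞`, for one `c > π/2`, with any exponent
  `k - ρ` and any real number `B ≠ 0` in the place of `L`, implies `r = k` and `L = B`.

So for every integer `ρ ≥ 0` and every real `B ≠ 0`, `lim (s - 1)^{-ρ} L(A, s) = B` if and only if the
rotated product of the local densities of `G` converges to `1 / (B v^ρ)`.  With `ρ` = rank of `A(ℚ)` and
`B` = the algebraic side, the leading-term formula of Birch and Swinnerton-Dyer is EQUIVALENT to a limit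
formula for the numbers of points of Bloch's group `G` over `𝔽_p` and `𝔽_{p²}`, in which no L-function
and no convergence factors occur.

If the Euler product with the squares of the eigenvalues of Frobenius is meromorphic at `s = 2`, of order
`μ` (by the conjecture of Tate `μ` is `2 rank NS(A) - rank End(A)`, with the endomorphisms and divisor
classes defined over `ℚ`, so that `μ = 1` for elliptic curves), the numbers of points over `𝔽_{p²}` are
not needed: the same holds for the product `exp ∑ K(u) log δ_1(p)` with the additional factor `2^{μ/2}`,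
the analogue of the `√2` in Goldfeld's theorem.

The hypothesis that `F` exists is proved here for the modular abelian varieties, that is, if the
characteristic polynomials of Frobenius are products of the polynomials `x² - a_p(f) x + χ(p) p` for
eigenforms `f` of weight two on `Γ₁(N)` (all abelian varieties over `ℚ` which are isogenous to products of
abelian varieties of `GL₂`-type).

Proof.  The exponents of the two products are, up to terms `O(1 / log X)`, the rotated mean of the
coefficients of `log L(A, s) + ρ log ζ(s)` (Möbius inversion over all extensions of `𝔽_p`; the weights of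
the extensions of degree `≥ 3` tend to `0`), to which the library of rotated means (start files
`N41.RM`, `W187.UR`, `W189`) applies; the rotated means of the logarithm of the Euler product with the
squares at `X` and at `√X` differ by `-μ log 2 + O(1 / log X)`.
-/

set_option autoImplicit false

namespace Pool.Agent.Results.MP_dfae13_nt.LocalDensities

open Filter Topology Asymptotics Polynomial
open UpperHalfPlane MatrixGroups CongruenceSubgroup

/-- The number of the nonzero solutions `u` of the equations `X` with coordinates in the field with `p^e`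
elements (the elements `z` of an algebraic closure of `𝔽_p` with `z^(p^e) = z`). -/
noncomputable def solutions {n : ℕ} (X : Set (MvPolynomial (Fin n) ℤ)) (p : Nat.Primes) (e : ℕ) : ℕ :=
  haveI : Fact (p : ℕ).Prime := ⟨p.2⟩
  Nat.card {u : Fin n → AlgebraicClosure (ZMod p) // u ≠ 0 ∧ (∀ j, u j ^ ((p : ℕ) ^ e) = u j) ∧
    ∀ f ∈ X, MvPolynomial.aeval u f = 0}

/-- `#A(𝔽_{p^e})`: the number of the points over the field with `p^e` elements of the projective scheme
`A` defined by the homogeneous polynomials `X`. -/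
noncomputable def points {n : ℕ} (X : Set (MvPolynomial (Fin n) ℤ)) (p : Nat.Primes) (e : ℕ) : ℝ :=
  (solutions X p e : ℝ) / (((p : ℕ) : ℝ) ^ e - 1)

/-- `α_1, …, α_{2g}` are the eigenvalues of the Frobenius at `p` on the first cohomology of the
abelian variety `A` of dimension `g` defined by `X`: the zeros of a polynomial with integral
coefficients, of absolute value `√p`, such that `#A(𝔽_{p^e}) = ∏ (1 - α_j^e)` for all `e ≥ 1`.  By Weil
this holds at all primes of good reduction of `X`. -/
structure IsFrobenius {n : ℕ} (X : Set (MvPolynomial (Fin n) ℤ)) (g : ℕ) (p : Nat.Primes)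
    (α : Fin (2 * g) → ℂ) : Prop where
  integral : ∃ P : ℤ[X], P.map (Int.castRingHom ℂ) = ∏ j, (Polynomial.X - C (α j))
  weil : ∀ j, ‖α j‖ = √((p : ℕ) : ℝ)
  count : ∀ e : ℕ, 1 ≤ e →
    (solutions X p e : ℂ) = (((p : ℕ) : ℂ) ^ e - 1) * ∏ j, (1 - α j ^ e)

/-- The L-function `L(A, s) = ∏_{p ∉ S} ∏_j (1 - α_{p,j} p^{-s})⁻¹`. -/
noncomputable def LFun {g : ℕ} (S : Finset Nat.Primes) (α : Nat.Primes → Fin (2 * g) → ℂ) (s : ℂ) : ℂ :=
  ∏' p : {p : Nat.Primes // p ∉ S}, ∏ j, (1 - α p.1 j * ((p.1 : ℕ) : ℂ) ^ (-s))⁻¹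

/-- The Euler product with the squares of the eigenvalues. -/
noncomputable def LSq {g : ℕ} (S : Finset Nat.Primes) (α : Nat.Primes → Fin (2 * g) → ℂ) (s : ℂ) : ℂ :=
  ∏' p : {p : Nat.Primes // p ∉ S}, ∏ j, (1 - α p.1 j ^ 2 * ((p.1 : ℕ) : ℂ) ^ (-s))⁻¹

/-- `F` is meromorphic at the points of the segment `[1, 3/2]`, and it is `L(A, s)` for
`Re s > 3/2`. -/
def IsContinuation {g : ℕ} (S : Finset Nat.Primes) (α : Nat.Primes → Fin (2 * g) → ℂ)
    (F : ℂ → ℂ) : Prop :=
  (∀ x : ℝ, 1 ≤ x → x ≤ 3 / 2 → MeromorphicAt F (x : ℂ)) ∧ ∀ s : ℂ, 3 / 2 < s.re → F s = LFun S α s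

/-- The `n`-th Fourier coefficient of the cusp form `f`. -/
noncomputable def coeff {N : ℕ} (f : CuspForm (Gamma1 N : Subgroup (GL (Fin 2) ℝ)) 2) (n : ℕ) : ℂ :=
  (UpperHalfPlane.qExpansion 1 f).coeff n

/-- `f` is a normalised eigenform of weight two on `Γ₁(N)`: `c(1) = 1`, `c(mn) = c(m) c(n)` for coprime
`m, n`, and `c(p^{j+2}) = c(p) c(p^{j+1}) - χ(p) p c(p^j)` for the primes `p`, where `χ` is the character
of `f` for the primes prime to `N`, and `χ(p) = 0` for the primes `p ∣ N`. -/
structure IsEigenform {N : ℕ} (f : CuspForm (Gamma1 N : Subgroup (GL (Fin 2) ℝ)) 2) (χ : ℕ → ℂ) :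
    Prop where
  one : coeff f 1 = 1
  mul : ∀ m n : ℕ, Nat.Coprime m n → coeff f (m * n) = coeff f m * coeff f n
  pow : ∀ p j : ℕ, p.Prime → coeff f (p ^ (j + 2)) =
    coeff f p * coeff f (p ^ (j + 1)) - χ p * p * coeff f (p ^ j)

/-- The characteristic polynomials of Frobenius outside `S` are the products of the polynomials
`x² - a_p(f_i) x + χ_i(p) p` for eigenforms `f_1, …, f_g` of weight two. -/
def IsModular {g : ℕ} (S : Finset Nat.Primes) (α : Nat.Primes → Fin (2 * g) → ℂ) : Prop :=
  ∃ (N : Fin g → ℕ) (f : ∀ i, CuspForm (Gamma1 (N i) : Subgroup (GL (Fin 2) ℝ)) 2)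
    (χ : Fin g → ℕ → ℂ), (∀ i, 0 < N i) ∧ (∀ i, IsEigenform (f i) (χ i)) ∧
    ∀ p ∉ S, ∏ j, (Polynomial.X - C (α p j)) =
      ∏ i, (Polynomial.X ^ 2 - C (coeff (f i) p) * Polynomial.X + C (χ i p * (p : ℕ)))

/-- `lim (s - 1)^{-k} F(s) = B` for `s → 1`. -/
def HasLeading (F : ℂ → ℂ) (k : ℤ) (B : ℝ) : Prop :=
  Tendsto (fun s : ℂ => (s - 1) ^ (-k) * F s) (𝓝[≠] 1) (𝓝 (B : ℂ))

/-- The local density `δ_e(p) = #A(𝔽_{p^e}) (p^e - 1)^ρ / p^{e (g + ρ)}` of an extension `G` of `A` by a
split torus of rank `ρ`. -/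
noncomputable def density {n : ℕ} (X : Set (MvPolynomial (Fin n) ℤ)) (g ρ : ℕ) (p : Nat.Primes)
    (e : ℕ) : ℝ :=
  points X p e * (((p : ℕ) : ℝ) ^ e - 1) ^ ρ / ((p : ℕ) : ℝ) ^ (e * (g + ρ))

/-- The kernel `K(u) = e^{icu} / Γ(1 + u)`. -/
noncomputable def kernel (c u : ℝ) : ℂ :=
  Complex.exp ((c * u : ℝ) * Complex.I) * ((Real.Gamma (1 + u))⁻¹ : ℝ)

/-- `Λ = ∫_0^∞ (e^{-t} - K(t)) dt / t`. -/
noncomputable def lam (c : ℝ) : ℂ :=
  ∫ t in Set.Ioi (0 : ℝ), (Complex.exp (-(t : ℂ)) - kernel c t) / t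

/-- The first order term `K(log p / log x) log δ_1(p)`. -/
noncomputable def term1 {n : ℕ} (X : Set (MvPolynomial (Fin n) ℤ)) (g ρ : ℕ) (c x : ℝ)
    (p : Nat.Primes) : ℂ :=
  kernel c (Real.log p / Real.log x) * (Real.log (density X g ρ p 1) : ℝ)

/-- The second order term `(K(2 log p / log x) - K(log p / log x)) log δ_2(p) / 2`. -/
noncomputable def term2 {n : ℕ} (X : Set (MvPolynomial (Fin n) ℤ)) (g ρ : ℕ) (c x : ℝ)
    (p : Nat.Primes) : ℂ :=
  (kernel c (2 * (Real.log p / Real.log x)) - kernel c (Real.log p / Real.log x)) *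
    ((Real.log (density X g ρ p 2) : ℝ) / 2)

/-- The rotated product of the local densities, `exp ∑_{p ∉ S} K(log p / log x) log δ_1(p)`. -/
noncomputable def prod1 {n : ℕ} (X : Set (MvPolynomial (Fin n) ℤ)) (S : Finset Nat.Primes) (g ρ : ℕ)
    (c x : ℝ) : ℂ :=
  Complex.exp (∑' p : {p : Nat.Primes // p ∉ S}, term1 X g ρ c x p.1)

/-- The rotated product of the local densities over the fields with `p` and with `p²` elements. -/
noncomputable def prod2 {n : ℕ} (X : Set (MvPolynomial (Fin n) ℤ)) (S : Finset Nat.Primes) (g ρ : ℕ)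
    (c x : ℝ) : ℂ :=
  Complex.exp (∑' p : {p : Nat.Primes // p ∉ S}, (term1 X g ρ c x p.1 + term2 X g ρ c x p.1))

/-- `e^{-(k-ρ)Λ} / (B ∏_{p ∈ S} (1 - 1/p)^ρ)`. -/
noncomputable def value (S : Finset Nat.Primes) (ρ : ℕ) (k : ℤ) (B c : ℝ) : ℂ :=
  Complex.exp (-(((k - ρ : ℤ) : ℂ) * lam c)) / ((B * (∏ p ∈ S, (1 - 1 / ((p : ℕ) : ℝ))) ^ ρ : ℝ) : ℂ)

/-- `P(x) = (log x)^{r-ρ} (E e^{-(r-ρ)Λ} / (L v^ρ) + O(1 / log x))` for `x → ∞`. -/
def Law (P : ℝ → ℂ) (S : Finset Nat.Primes) (ρ : ℕ) (r : ℤ) (L c E : ℝ) : Prop :=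
  (fun x : ℝ => P x / (Real.log x : ℂ) ^ (r - ρ : ℤ) - E * value S ρ r L c) =O[atTop]
    (fun x : ℝ => 1 / Real.log x)

/-- The limit formula along one sequence, with `k` and `B` in the place of order and leading
coefficient. -/
def Formula (P : ℝ → ℂ) (S : Finset Nat.Primes) (ρ : ℕ) (k : ℤ) (B c E : ℝ) (x : ℕ → ℝ) : Prop :=
  Tendsto (fun m => P (x m) / (Real.log (x m) : ℂ) ^ (k - ρ : ℤ)) atTop (𝓝 (E * value S ρ k B c))

section bridge

open Pool.Agent.J6H39.RP

variable {n g : ℕ} {X : Set (MvPolynomial (Fin n) ℤ)} {S : Finset Nat.Primes}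
  {α : Nat.Primes → Fin (2 * g) → ℂ}

theorem eigQ (hα : ∀ p ∉ S, IsFrobenius X g p (α p)) : EigQ S α where
  norm := fun p hp j => (hα p hp).weil j
  stable := fun p hp => Pool.Agent.R409.RA.conj_stable (hα p hp).integral

theorem cnt (hα : ∀ p ∉ S, IsFrobenius X g p (α p)) : Cnt S α (points X) := by
  intro p hp e he
  have hp1 : (1 : ℝ) < ((p : ℕ) : ℝ) := by exact_mod_cast p.2.one_lt
  have hpe : (1 : ℝ) < ((p : ℕ) : ℝ) ^ e := one_lt_pow₀ hp1 (by omega)
  unfold points
  refine ⟨div_nonneg (Nat.cast_nonneg _) (by linarith), ?_⟩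
  have h1 := (hα p hp).count e he
  have h5 : (((p : ℕ) : ℂ) ^ e - 1) ≠ 0 := by
    have : (((p : ℕ) : ℝ) ^ e - 1) ≠ 0 := by linarith
    exact_mod_cast this
  push_cast
  rw [h1]
  field_simp

theorem term1_eq (ρ : ℕ) (c x : ℝ) (p : Pr S) :
    term1 X g ρ c x p.1 = u1 S g (points X) ρ c (Real.log x) p := rfl

theorem term2_eq (ρ : ℕ) (c x : ℝ) (p : Pr S) :
    term2 X g ρ c x p.1 = u2 S g (points X) ρ c (Real.log x) p := rfl

theorem lam_eq (c : ℝ) : lam c = Pool.Agent.W187.UR.Lam c := rfl

theorem modular (h : IsModular S α) : Pool.Agent.J6H39.RP.IsModular S α := by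
  obtain ⟨N, f, χ, h1, h2, h3⟩ := h
  exact ⟨N, f, χ, h1, fun i => ⟨(h2 i).one, (h2 i).mul, (h2 i).pow⟩, h3⟩

end bridge

open Pool.Agent.J6H39.RP in
/-- **The Birch and Swinnerton-Dyer formula as a convergent product of local densities.**  Let `A` be an
abelian variety over `ℚ` of dimension `g` defined by the homogeneous equations `X` with integral
coefficients, with good reduction outside the finite set `S` of primes, `α_p` the eigenvalues of
Frobenius.  If `A` is modular, then `L(A, s)` has an entire continuation.  The series which define the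
products `prod1` and `prod2` are absolutely convergent.  Let `F` be a meromorphic continuation of
`L(A, s)` to `[1, 3/2]`.  Then `F` has an order `r` and a real leading coefficient `L ≠ 0` at `s = 1`, and
for every torus rank `ρ` and every `c > π/2`

* `prod2` has the asymptotic formula `Law` with the factor `E = 1`;
* for all integers `k`, all real numbers `B ≠ 0` and all sequences `x_m → ∞`, the limit
  `lim (s - 1)^{-k} F(s)` exists and is `B` if and only if the limit formula `Formula` with `k` and `B`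
  holds;
* if `G` is meromorphic at `2` and equal to the Euler product with the squares of the eigenvalues for
  `Re s > 2`, then its order `μ` at `s = 2` is finite and the same two assertions hold for `prod1`, with
  the factor `E = 2^{μ/2}`. -/
theorem result (n g : ℕ) (X : Set (MvPolynomial (Fin n) ℤ)) (S : Finset Nat.Primes)
    (α : Nat.Primes → Fin (2 * g) → ℂ) (hα : ∀ p ∉ S, IsFrobenius X g p (α p)) :
    (IsModular S α → ∃ F : ℂ → ℂ, Differentiable ℂ F ∧ IsContinuation S α F) ∧
    (∀ (ρ : ℕ) (c x : ℝ), 1 < x →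
      Summable (fun p : {p : Nat.Primes // p ∉ S} => ‖term1 X g ρ c x p.1‖) ∧
      Summable (fun p : {p : Nat.Primes // p ∉ S} => ‖term2 X g ρ c x p.1‖)) ∧
    ∀ F : ℂ → ℂ, IsContinuation S α F →
      ∃ (r : ℤ) (L : ℝ), L ≠ 0 ∧ HasLeading F r L ∧
      ∀ (ρ : ℕ) (c : ℝ), Real.pi / 2 < c →
        Law (prod2 X S g ρ c) S ρ r L c 1 ∧
        (∀ (k : ℤ) (B : ℝ), B ≠ 0 → ∀ x : ℕ → ℝ, Tendsto x atTop atTop →
          (HasLeading F k B ↔ Formula (prod2 X S g ρ c) S ρ k B c 1 x)) ∧
        ∀ G : ℂ → ℂ, MeromorphicAt G 2 → (∀ s : ℂ, 2 < s.re → G s = LSq S α s) →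
          ∃ μ : ℤ, meromorphicOrderAt G 2 = μ ∧
          Law (prod1 X S g ρ c) S ρ r L c ((2 : ℝ) ^ ((μ : ℝ) / 2)) ∧
          ∀ (k : ℤ) (B : ℝ), B ≠ 0 → ∀ x : ℕ → ℝ, Tendsto x atTop atTop →
            (HasLeading F k B ↔
              Formula (prod1 X S g ρ c) S ρ k B c ((2 : ℝ) ^ ((μ : ℝ) / 2)) x) := by
  have hE := eigQ hα
  have hN := cnt hα
  refine ⟨fun hm => ?_, fun ρ c x hx => u_summable hE hN ρ c (Real.log_pos hx), fun F hF => ?_⟩
  · obtain ⟨F, h1, h2⟩ := modular_cont hE (modular hm)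
    exact ⟨F, h1, fun x _ _ => (h1.analyticAt _).meromorphicAt, h2⟩
  obtain ⟨r, L, hL0, hL, hlaw⟩ := final hE hN hF.1 hF.2
  refine ⟨r, L, hL0, hL, fun ρ c hc => ?_⟩
  obtain ⟨h1, h2, h3⟩ := hlaw ρ c hc
  have hval : ∀ (k : ℤ) (B : ℝ), value S ρ k B c =
      Complex.exp (-(((k - ρ : ℤ) : ℂ) * Pool.Agent.W187.UR.Lam c)) /
        ((B * vol S ^ ρ : ℝ) : ℂ) := fun k B => rfl
  refine ⟨?_, fun k B hB x hx => ?_, fun G hG hGe => ?_⟩
  · have h4 := h1.comp_tendsto Real.tendsto_log_atTop
    unfold Law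
    simp only [hval, Complex.ofReal_one, one_mul]
    exact h4
  · have h4 := h2 k B hB (fun m => Real.log (x m)) (Real.tendsto_log_atTop.comp hx)
    unfold Formula
    simp only [hval, Complex.ofReal_one, one_mul]
    exact h4
  · obtain ⟨μ, hμ, h4, h5⟩ := h3 G hG hGe
    refine ⟨μ, hμ, ?_, fun k B hB x hx => ?_⟩
    · have h6 := h4.comp_tendsto Real.tendsto_log_atTop
      unfold Law
      simp only [hval]
      exact h6
    · have h6 := h5 k B hB (fun m => Real.log (x m)) (Real.tendsto_log_atTop.comp hx)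
      unfold Formula
      simp only [hval]
      exact h6

end Pool.Agent.Results.MP_dfae13_nt.LocalDensities
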