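import Pool.Agent.J6H27.TP.Sl
import Pool.Agent.J6H27.TP.Tr
import Pool.Agent.J6H27.TP.Dat
import Pool.Agent.J6H27.TP.Tor

/-!
# The Birch and Swinnerton-Dyer formula modulo 2 for the abelian varieties `E ⊗ M`

`E` is an elliptic curve over `ℚ` with the (minimal) equation `W`, of any sign of the discriminant `Δ` and
of any rank, and `M = ℤ^g` is a lattice with an action `ρ` of `Gal(ℚ(ζ_m)/ℚ) = (ℤ/m)ˣ` through a 2-group;
`m` is squarefree and prime to `2 Δ`, `a_l(E)` is odd for all primes `l` that divide `m`, the primes that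
divide `2 Δ` act trivially on `M`, and if `Δ > 0` then the complex conjugation acts trivially on `M`.  The
abelian variety `A = E ⊗ M` over `ℚ` has dimension `g`; for `g = 1` it is a quadratic twist of `E`, for
`M = ℤ[Gal(K/ℚ)]` the restriction of scalars of `E` from `K` to `ℚ`.

The formula of Birch and Swinnerton-Dyer modulo 2 for an abelian variety says that the quotient
`x = L(1) #A(ℚ)_tors #A'(ℚ)_tors / Ω` is a rational number with odd denominator, and that its numerator is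
odd if and only if `A(ℚ)` is finite, `Ш(A/ℚ)[2^∞] = 0` and the product of the Tamagawa numbers is odd.
(The conjecture says that `x = #Ш(A/ℚ) Tam(A)` if the rank is zero, and `x = 0` otherwise.)

We prove that the formula modulo 2 holds for `A` **if and only if** it holds for `E`; more precisely, that
the quotients `x` for `A` and `x₀` for `E` both have odd denominators and numerators of the same parity, and
that `A(ℚ)` is finite and `Ш(A/ℚ)[2^∞] = 0` if and only if `E(ℚ)` is finite and `Ш(E/ℚ)[2^∞] = 0`.  In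
particular the formula modulo 2 is the same statement for `E`, for all the quadratic twists by the
`d` as above and for all the abelian varieties `E ⊗ M`.

From `A` to `E` in the algebraic part: a 2-group acts on `M / 2 M`, so there is a vector `w` of `M` which
is not zero and is fixed modulo 2, and `h ↦ w ⊗ h` maps the 2-Selmer group of `E` to the cocycles of
`A`.  These are locally trivial: at the primes `l ∣ m` and, for `Δ < 0`, at the real place, a locally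
trivial class of `H¹(E[2])` is the coboundary of a point of order two; at the primes that divide `2 Δ` the
lattice is trivial; at the other primes `f ↦ φ f - f` is onto on the points of 2-power order of `E ⊗ M`,
where `φ` is a lift of Frobenius, and an unramified class is given by its value at `φ`.
-/

set_option autoImplicit false

open NumberField NumberField.InfinitePlace IsDedekindDomain WeierstrassCurve MeasureTheory
open UpperHalfPlane MatrixGroups CongruenceSubgroup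

namespace Pool.Agent.Results.MP_dfae13_nt.TensorFormulaModTwo

open scoped Classical

open Pool.Agent.TH841.NF.D (Sha)
open Pool.Agent.TH841.SH.D (Pt act Gal)

/-- The curve given by the equation of `W` over the ring `R`. -/
abbrev base (W : WeierstrassCurve ℤ) (R : Type) [CommRing R] : WeierstrassCurve R :=
  W.map (Int.castRingHom R)

/-- The number of the affine points `(x, y)` over the ring `R`. -/
noncomputable def pts (W : WeierstrassCurve ℤ) (R : Type) [CommRing R] : ℕ :=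
  Nat.card {P : R × R // (base W R).toAffine.Equation P.1 P.2}

/-- `E⁰(ℚ_p)`, the group of the points of `W` over `ℚ_p` with nonsingular reduction:
the points `(x, y)` where `x` is not integral, or one of the partial derivatives of
`y² + a₁ x y + a₃ y - x³ - a₂ x² - a₄ x - a₆` is a unit at `(x, y)`, and the point at infinity. -/
noncomputable def nonsing (W : WeierstrassCurve ℤ) (p : ℕ) [Fact p.Prime] :
    AddSubgroup (base W ℚ_[p]).toAffine.Point :=
  AddSubgroup.closure {P | ∀ x y h, P = Affine.Point.some x y h →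
    1 < ‖x‖ ∨ ‖(W.a₁ : ℚ_[p]) * y - (3 * x ^ 2 + 2 * W.a₂ * x + W.a₄)‖ = 1 ∨
      ‖2 * y + W.a₁ * x + W.a₃‖ = 1}

/-- The Tamagawa number `c_p = [E(ℚ_p) : E⁰(ℚ_p)]`. -/
noncomputable def c (W : WeierstrassCurve ℤ) (p : ℕ) : ℕ :=
  if h : p.Prime then
    haveI : Fact p.Prime := ⟨h⟩
    (nonsing W p).index
  else 1

/-- The product of the Tamagawa numbers, over the primes that divide the discriminant. -/
noncomputable def Tam (W : WeierstrassCurve ℤ) : ℕ := ∏ p ∈ W.Δ.natAbs.primeFactors, c W p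

/-- The 2-primary part of the Tate-Shafarevich group over `ℚ`. -/
def Sha2 (W : WeierstrassCurve ℤ) : Set (Sha (base W ℚ)) := {x | ∃ n : ℕ, 2 ^ n • x = 0}

/-- The torsion subgroup of the group of the points over `K`. -/
def tors (K : Type) [Field K] (W : WeierstrassCurve ℤ) : Set (base W K).toAffine.Point :=
  {P | ∃ n : ℕ, 0 < n ∧ n • P = 0}

/-- `4 x³ + b₂ x² + 2 b₄ x + b₆ = (2 y + a₁ x + a₃)²`, where `b₂ = a₁² + 4 a₂`,
`b₄ = 2 a₄ + a₁ a₃`, `b₆ = a₃² + 4 a₆`. -/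
def cubic (W : WeierstrassCurve ℤ) {R : Type} [CommRing R] (x : R) : R :=
  4 * x ^ 3 + W.b₂ * x ^ 2 + 2 * W.b₄ * x + W.b₆

/-- `∫_{W(ℝ)} |ω|` with `ω = dx / (2 y + a₁ x + a₃)`, as an integral over `x`: two real points lie
over each `x` with `cubic x > 0`. -/
noncomputable def realPeriod (W : WeierstrassCurve ℤ) : ℝ :=
  2 * ∫ x in {x : ℝ | 0 < cubic W x}, 1 / √(cubic W x)

/-- `2 ∫_{W(ℂ)} |ω ∧ ω̄|`, where `|ω ∧ ω̄| = du dv` in a local parameter `z = u + i v` with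
`dz = ω`, as an integral over `x`: two points lie over a general `x`, and `|ω ∧ ω̄|` is the area
element of the plane of `x` divided by `|cubic x|`. -/
noncomputable def complexPeriod (W : WeierstrassCurve ℤ) : ℝ := 2 * (2 * ∫ x : ℂ, 1 / ‖cubic W x‖)

/-- `x = L(E, 1) (#E(ℚ)_tors)² / ∫_{E(ℝ)} |ω|`, where `L` is the entire function given by the Euler
product for `Re s > 3/2`, with the factors `(1 - a_p p^(-s) + p^(1 - 2 s))⁻¹` for `p ∤ Δ` and
`(1 - a_p p^(-s))⁻¹` for `p ∣ Δ`, where `a_p = p - pts` (`pts` does not count the point at infinity). -/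
def HasValue (W : WeierstrassCurve ℤ) (x : ℚ) : Prop :=
  ∃ L : ℂ → ℂ, Differentiable ℂ L ∧
    (∀ s : ℂ, 3 / 2 < s.re → HasProd (fun p : Nat.Primes =>
      (1 - (((((p : ℕ) : ℤ) - pts W (ZMod p) : ℤ)) : ℂ) * ((p : ℕ) : ℂ) ^ (-s) +
        if ((p : ℕ) : ℤ) ∣ W.Δ then 0 else ((p : ℕ) : ℂ) ^ (1 - 2 * s))⁻¹) (L s)) ∧
    L 1 * (Nat.card (tors ℚ W) : ℂ) ^ 2 = x * realPeriod W

/-- **The formula of Birch and Swinnerton-Dyer modulo 2** for `E` over `ℚ` (for a minimal equation): the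
`L`-function is entire, `x = L(E, 1) (#E(ℚ)_tors)² / ∫_{E(ℝ)} |ω|` is a rational number with odd
denominator, and its numerator is odd if and only if `E(ℚ)` is finite, `Ш(E/ℚ)[2^∞] = 0` and the product of
the Tamagawa numbers is odd. -/
def BSDModTwo (W : WeierstrassCurve ℤ) : Prop :=
  ∃ x : ℚ, HasValue W x ∧ Odd x.den ∧
    (Odd x.num ↔ Finite (base W ℚ).toAffine.Point ∧ Sha2 W = {0} ∧ Odd (Tam W))

section modular

variable {N : ℕ}

/-- The `n`-th coefficient of the cusp form `f = ∑ a_n q^n`. -/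
noncomputable def co (f : CuspForm (Gamma0 N : Subgroup (GL (Fin 2) ℝ)) 2) (n : ℕ) : ℂ :=
  (qExpansion 1 f).coeff n

/-- `2 π i ∫_(i∞)^z f(w) dw = ∑ a_n / n e^(2 π i n z)`. -/
noncomputable def prim (f : CuspForm (Gamma0 N : Subgroup (GL (Fin 2) ℝ)) 2) (z : ℂ) : ℂ :=
  ∑' n : ℕ, co f n / n * Complex.exp (2 * Real.pi * Complex.I * n * z)

/-- The cusp form `f` of weight two for `Γ₀(N)` is the newform of `W`: it is a normalised eigenform
of the Hecke operators and of the Fricke involution, with real coefficients that satisfy the bounds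
of Hasse, `N` has the same prime divisors as the discriminant, and `a_p = p + 1 - #W(𝔽_p)`. -/
structure IsNewform (W : WeierstrassCurve ℤ) (N : ℕ)
    (f : CuspForm (Gamma0 N : Subgroup (GL (Fin 2) ℝ)) 2) : Prop where
  one : co f 1 = 1
  real : ∀ n, (co f n).im = 0
  mul : ∀ m n : ℕ, Nat.Coprime m n → co f (m * n) = co f m * co f n
  pow : ∀ p j : ℕ, p.Prime → co f (p ^ (j + 2)) = co f p * co f (p ^ (j + 1)) -
      (if p ∣ N then 0 else (p : ℂ) * co f (p ^ j))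
  good : ∀ p : ℕ, p.Prime → ¬ p ∣ N → ‖co f p‖ ≤ 2 * Real.sqrt p
  bad : ∀ p : ℕ, p.Prime → p ∣ N → ‖co f p‖ ≤ 1
  fricke : ∃ w : ℝ, (w = 1 ∨ w = -1) ∧ ∀ τ τ' : ℍ, (τ' : ℂ) * ((N : ℂ) * (τ : ℂ)) = -1 →
    f τ' = -(w : ℂ) * (N : ℂ) * (τ : ℂ) ^ 2 * f τ
  level : ∀ p : ℕ, p.Prime → (p ∣ N ↔ (p : ℤ) ∣ W.Δ)
  coef : ∀ p : ℕ, p.Prime → co f p = (p : ℂ) - (pts W (ZMod p) : ℂ)

end modular

section tensor

/-! ### The abelian variety `A = E ⊗ M`, `M = ℤ^g`

Its points over an algebraic closure of `ℚ` are the `g`-tuples of points of `E`; the Galois group of `ℚ`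
acts on them by its action on `E` and the matrices `R(σ)`. -/

/-- The action of an integral matrix on `ℤ^g ⊗ G = G^g`. -/
def mat {G : Type} [AddCommGroup G] {g : ℕ} (A : Matrix (Fin g) (Fin g) ℤ) (P : Fin g → G) :
    Fin g → G := fun i => ∑ j, A i j • P j

variable {g : ℕ} (W : WeierstrassCurve ℤ) (R : Gal ℚ →* GL (Fin g) ℤ)

/-- The points of `A` over an extension of `ℚ` over which the action on `M` is trivial. -/
abbrev PtA (g : ℕ) (L : Type) [Field L] [Algebra ℚ L] : Type := Fin g → Pt (base W ℚ) L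

/-- The action of the Galois group on the points of `A`: `σ` applied to the coordinates, and then the
matrix `R(σ)`. -/
noncomputable def actA (σ : Gal ℚ) (P : PtA W g (AlgebraicClosure ℚ)) :
    PtA W g (AlgebraicClosure ℚ) :=
  mat (R σ : Matrix (Fin g) (Fin g) ℤ) (fun i => act (base W ℚ) σ.toAlgHom (P i))

/-- `A(ℚ)`. -/
def ptsA : Set (PtA W g (AlgebraicClosure ℚ)) := {P | ∀ σ : Gal ℚ, actA W R σ P = P}

/-- The torsion of `A(ℚ)`. -/
def torsA : Set (PtA W g (AlgebraicClosure ℚ)) :=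
  {P | P ∈ ptsA W R ∧ ∃ n : ℕ, 0 < n ∧ n • P = 0}

/-- `f` is a continuous cocycle with values in `A`: `f (σ τ) = f σ + σ (f τ)`. -/
def IsCocycle (f : Gal ℚ → PtA W g (AlgebraicClosure ℚ)) : Prop :=
  IsLocallyConstant f ∧ ∀ σ τ : Gal ℚ, f (σ * τ) = f σ + actA W R σ (f τ)

/-- `f` is a coboundary: `f σ = σ P - P`. -/
def IsCoboundary (f : Gal ℚ → PtA W g (AlgebraicClosure ℚ)) : Prop :=
  ∃ P : PtA W g (AlgebraicClosure ℚ), ∀ σ : Gal ℚ, f σ = actA W R σ P - P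

/-- For every embedding of the algebraic closures the restriction of `f` to the absolute Galois
group of `K` is a coboundary: `f σ = τ P - P` for `τ` in this group with restriction `σ`. -/
def LocTriv (K : Type) [Field K] [Algebra ℚ K] (f : Gal ℚ → PtA W g (AlgebraicClosure ℚ)) : Prop :=
  ∀ ι : AlgebraicClosure ℚ →ₐ[ℚ] AlgebraicClosure K, ∃ P : PtA W g (AlgebraicClosure K),
    ∀ (τ : Gal K) (σ : Gal ℚ), (∀ x, τ (ι x) = ι (σ x)) →
      (fun i => act (base W ℚ) ι (f σ i)) = mat (R σ : Matrix (Fin g) (Fin g) ℤ)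
        (fun i => act (base W ℚ) (τ.toAlgHom.restrictScalars ℚ) (P i)) - P

/-- `f` is a continuous cocycle that is locally trivial at all the places of `ℚ`; its class is an
element of `Ш(A/ℚ)`, and this is zero if and only if `f` is a coboundary. -/
def IsShaCocycle (f : Gal ℚ → PtA W g (AlgebraicClosure ℚ)) : Prop :=
  IsCocycle W R f ∧ (∀ (p : ℕ) [Fact p.Prime], LocTriv W R ℚ_[p] f) ∧ LocTriv W R ℝ f

/-- `Ш(A/ℚ)[2^∞] = 0`. -/
def ShaTrivial : Prop :=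
  ∀ f, IsShaCocycle W R f → ∀ k : ℕ, IsCoboundary W R (2 ^ k • f) → IsCoboundary W R f

end tensor

section lattice

variable {m g : ℕ} (ρ : (ZMod m)ˣ →* GL (Fin g) ℤ)

/-- The matrix `ρ(p)` of the Frobenius automorphism at a prime `p` that does not divide `m`. -/
noncomputable def frob (p : ℕ) : Matrix (Fin g) (Fin g) ℤ :=
  if h : p.Coprime m then (ρ (ZMod.unitOfCoprime p h) : Matrix (Fin g) (Fin g) ℤ) else 0

/-- The Euler polynomial of `A = E ⊗ M` at a prime `p` of good reduction that does not divide `m`,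
`det (1 - T Frob_p | H¹(A)) = det (1 - a_p T ρ(p) + p T² ρ(p)²)`, where `a_p = p - pts` as `pts` does not
count the point at infinity. -/
noncomputable def P (W : WeierstrassCurve ℤ) (p : ℕ) (T : ℂ) : ℂ :=
  (1 - ((((p : ℤ) - pts W (ZMod p) : ℤ) : ℂ) * T) • (frob ρ p).map (Int.cast : ℤ → ℂ) +
    ((p : ℂ) * T ^ 2) • ((frob ρ p).map (Int.cast : ℤ → ℂ)) ^ 2).det

/-- `det (1 - a_p / p ρ(p)) = #𝒜⁰(𝔽_p) / p^g` at a prime `p` of bad reduction of `E` that does not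
divide `m`. -/
noncomputable def bad (W : WeierstrassCurve ℤ) (p : ℕ) : ℝ :=
  (1 - ((((p : ℤ) - pts W (ZMod p) : ℤ) : ℝ) / p) • (frob ρ p).map (Int.cast : ℤ → ℝ)).det

/-- The vectors of `M` fixed by the subgroup `H`. -/
noncomputable def fixed (H : Subgroup (ZMod m)ˣ) : Submodule ℤ (Fin g → ℤ) :=
  ⨅ u : H, LinearMap.ker (Matrix.toLin' ((ρ (u : (ZMod m)ˣ) : Matrix (Fin g) (Fin g) ℤ) - 1))

/-- The inertia group at the prime `l ∣ m`, for `m` squarefree: the units congruent to `1` modulo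
`m / l`. -/
def inertia (m l : ℕ) : Subgroup (ZMod m)ˣ where
  carrier := {u | ∃ k : ZMod m, (u : ZMod m) = 1 + k * ((m / l : ℕ) : ZMod m)}
  one_mem' := ⟨0, by simp⟩
  mul_mem' := by
    rintro u v ⟨k, hk⟩ ⟨j, hj⟩
    refine ⟨k + j + k * j * ((m / l : ℕ) : ZMod m), ?_⟩
    rw [Units.val_mul, hk, hj]
    ring
  inv_mem' := by
    rintro u ⟨k, hk⟩
    refine ⟨-k * ((u⁻¹ : (ZMod m)ˣ) : ZMod m), ?_⟩
    have h1 : ((u⁻¹ : (ZMod m)ˣ) : ZMod m) * (u : ZMod m) = 1 := Units.inv_mul u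
    have h2 : ((u⁻¹ : (ZMod m)ˣ) : ZMod m) * (1 + k * ((m / l : ℕ) : ZMod m)) = 1 := by
      rw [← hk]; exact h1
    linear_combination h2

/-- The Artin conductor of `M`, `∏_{l ∣ m} l^(g - rank M^(I_l))`, for `m` squarefree. -/
noncomputable def cond : ℕ :=
  ∏ l ∈ m.primeFactors, l ^ (g - Module.finrank ℤ (fixed ρ (inertia m l)))

/-- `V_∞`, the volume of `A(ℝ)` for the Néron differential of `A`; `-1` is the complex conjugation. -/
noncomputable def Vinf (W : WeierstrassCurve ℤ) : ℝ :=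
  realPeriod W ^ Module.finrank ℤ (fixed ρ (Subgroup.zpowers (-1))) *
    (complexPeriod W / realPeriod W) ^
      (g - Module.finrank ℤ (fixed ρ (Subgroup.zpowers (-1)))) / √(cond ρ : ℝ)

end lattice

/-- The contragredient: `A ↦ (A⁻¹)ᵀ`.  It gives the action on the dual lattice `M^∨`. -/
noncomputable def contra (g : ℕ) : GL (Fin g) ℤ →* GL (Fin g) ℤ where
  toFun A := ⟨((A⁻¹ : GL (Fin g) ℤ) : Matrix (Fin g) (Fin g) ℤ).transpose,
    ((A : GL (Fin g) ℤ) : Matrix (Fin g) (Fin g) ℤ).transpose, by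
      rw [← Matrix.transpose_mul, ← Units.val_mul, mul_inv_cancel, Units.val_one,
        Matrix.transpose_one], by
      rw [← Matrix.transpose_mul, ← Units.val_mul, inv_mul_cancel, Units.val_one,
        Matrix.transpose_one]⟩
  map_one' := by
    apply Units.ext
    show ((1⁻¹ : GL (Fin g) ℤ) : Matrix (Fin g) (Fin g) ℤ).transpose = 1
    rw [inv_one, Units.val_one, Matrix.transpose_one]
  map_mul' A B := by
    apply Units.ext
    show (((A * B)⁻¹ : GL (Fin g) ℤ) : Matrix (Fin g) (Fin g) ℤ).transpose =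
      ((A⁻¹ : GL (Fin g) ℤ) : Matrix (Fin g) (Fin g) ℤ).transpose *
        ((B⁻¹ : GL (Fin g) ℤ) : Matrix (Fin g) (Fin g) ℤ).transpose
    rw [mul_inv_rev, Units.val_mul, Matrix.transpose_mul]

section formula

variable (W : WeierstrassCurve ℤ) {m g : ℕ} (ρ : (ZMod m)ˣ →* GL (Fin g) ℤ) (κ : Gal ℚ →* (ZMod m)ˣ)

/-- `x = L(A, 1) #A(ℚ)_tors #A'(ℚ)_tors / (V_∞ ∏_{p ∣ Δ} #𝒜⁰(𝔽_p) / p^g)`, where `A' = E ⊗ M^∨` is the dual
abelian variety and `L` is the entire function given by the Euler product over the primes that do not divide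
`m Δ`.  At the primes `l ∣ m` there is no factor: the volume of `A(ℚ_l)` is a unit at 2, as `a_l(E)` is
odd and a 2-group acts on `M`. -/
def HasValueA (x : ℚ) : Prop :=
  ∃ L : ℂ → ℂ, Differentiable ℂ L ∧
    (∀ s : ℂ, 3 / 2 < s.re → HasProd (fun p : Nat.Primes =>
      if ((p : ℕ) : ℤ) ∣ m * W.Δ then 1 else (P ρ W p (((p : ℕ) : ℂ) ^ (-s)))⁻¹) (L s)) ∧
    L 1 * (Nat.card (torsA W (ρ.comp κ)) : ℂ) *
        (Nat.card (torsA W (((contra g).comp ρ).comp κ)) : ℂ) =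
      x * (Vinf ρ W * ∏ p ∈ W.Δ.natAbs.primeFactors, bad ρ W p)

/-- **The formula of Birch and Swinnerton-Dyer modulo 2** for `A = E ⊗ M` over `ℚ`: the `L`-function is
entire, `x` is a rational number with odd denominator, and its numerator is odd if and only if `A(ℚ)` is
finite, `Ш(A/ℚ)[2^∞] = 0` and the product of the Tamagawa numbers is odd.  The primes that divide `Δ` act
trivially on `M`, so `A` is isomorphic to `E^g` over `ℚ_p` for `p ∣ Δ`, and the product of the Tamagawa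
numbers of `A` at these primes is the `g`-th power of the one for `E`. -/
def BSDModTwoA : Prop :=
  ∃ x : ℚ, HasValueA W ρ κ x ∧ Odd x.den ∧
    (Odd x.num ↔ Finite (ptsA W (ρ.comp κ)) ∧ ShaTrivial W (ρ.comp κ) ∧ Odd (Tam W ^ g))

end formula

section proof

open Pool.Agent.J6H27.TP

variable {N : ℕ} [NeZero N]

omit [NeZero N] in
lemma isForm {W : WeierstrassCurve ℤ} {f : CuspForm (Gamma0 N : Subgroup (GL (Fin 2) ℝ)) 2}
    (h : IsNewform W N f) : Pool.Agent.Y702.G.IsForm W N f :=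
  ⟨h.one, h.real, h.mul, h.pow, h.good, h.bad, h.fricke, h.level, h.coef⟩

lemma sha_iff (W : WeierstrassCurve ℤ) :
    (∀ s : Sha (base W ℚ), 2 • s = 0 → s = 0) ↔ Sha2 W = {0} := by
  constructor
  · intro h
    have key : ∀ (j : ℕ) (x : Sha (base W ℚ)), 2 ^ j • x = 0 → x = 0 := by
      intro j
      induction j with
      | zero => intro x hx; rw [pow_zero, one_nsmul] at hx; exact hx
      | succ j ih =>
        intro x hx
        rw [pow_succ, mul_nsmul] at hx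
        exact ih x (h _ hx)
    ext x
    constructor
    · rintro ⟨k, hk⟩
      exact key k x hk
    · rintro rfl
      exact ⟨0, nsmul_zero _⟩
  · intro h s hs
    have h1 : s ∈ Sha2 W := ⟨1, by rw [pow_one]; exact hs⟩
    rw [h] at h1
    exact h1

/-- multiplication by an odd integer -/
lemma odd_mul_rat (r : ℚ) (hr : Odd r.den) (k : ℤ) (hk : Odd k) :
    Odd (r * k).den ∧ (Odd (r * k).num ↔ Odd r.num) := by
  have h1 : r * k = ((r.num * k : ℤ) : ℚ) / ((r.den : ℤ) : ℚ) := by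
    have h2 : (r.num : ℚ) / (r.den : ℚ) = r := Rat.num_div_den r
    push_cast
    rw [mul_div_right_comm, h2]
  have hd : Odd ((r.den : ℤ)) := by exact_mod_cast hr
  obtain ⟨h2, h3⟩ := Pool.Agent.R425.G.odd_frac (r.num * k) (r.den : ℤ) hd
  rw [h1]
  refine ⟨h2, h3.trans ?_⟩
  rw [Int.odd_mul]
  exact ⟨fun h => h.1, fun h => ⟨h, hk⟩⟩

/-- the torsion -/
lemma tors_part (W : WeierstrassCurve ℤ) (hΔ : W.Δ ≠ 0)
    (hnr : ∀ x : ℚ, Pool.Agent.TH115.GD.cub (Pool.Agent.Y702.G.sh W) x ≠ 0)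
    {m : ℕ} [NeZero m] {g n : ℕ} (ρ : (ZMod m)ˣ →* GL (Fin g) ℤ) (hρ : ∀ u, ρ u ^ (2 ^ n) = 1)
    (κ : Gal ℚ →* (ZMod m)ˣ)
    (hκ : ∀ (σ : Gal ℚ) (ζ : AlgebraicClosure ℚ), ζ ^ m = 1 → σ ζ = ζ ^ ((κ σ : ZMod m)).val)
    (τ : GL (Fin g) ℤ →* GL (Fin g) ℤ) : Odd (Nat.card (torsA W ((τ.comp ρ).comp κ))) := by
  obtain ⟨k, hk⟩ := Pool.Agent.Y702.A.finrank_field ρ (CyclotomicField m ℚ) n hρ
  have hgal : IsGalois ℚ (Pool.Agent.Y702.A.fieldOf ρ (CyclotomicField m ℚ)) :=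
    Pool.Agent.Y702.L.gal_F m (CyclotomicField m ℚ) _
  have hnrK := Pool.Agent.Y702.G.no_root (Pool.Agent.Y702.G.sh W) hnr
    (Pool.Agent.Y702.A.fieldOf ρ (CyclotomicField m ℚ)) k hk
  have htK := Pool.Agent.R425.G.tors_odd W hΔ hnrK
  have hfinK := Nat.finite_of_card_ne_zero (by
    intro h
    rw [h] at htK
    exact absurd htK (by decide))
  obtain ⟨i⟩ : Nonempty (CyclotomicField m ℚ →+* AlgebraicClosure ℚ) :=
    ⟨(IsAlgClosed.lift : CyclotomicField m ℚ →ₐ[ℚ] AlgebraicClosure ℚ).toRingHom⟩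
  exact Pool.Agent.J6H27.TP.s_tors W hΔ _ hfinK
    (fun P hP => Pool.Agent.R425.G.two_tors W hΔ hnrK P hP) g ((τ.comp ρ).comp κ)
    (i.comp (algebraMap (Pool.Agent.Y702.A.fieldOf ρ (CyclotomicField m ℚ)) (CyclotomicField m ℚ)))
    (fun σ hσ => by
      show τ (ρ (κ σ)) = 1
      rw [Pool.Agent.Y702.A.trivial_of_fix ρ (CyclotomicField m ℚ) κ hκ i σ hσ, map_one])

/-- the algebraic part -/
lemma alg_part (W : WeierstrassCurve ℤ) (hΔ : W.Δ ≠ 0)
    (hnr : ∀ x : ℚ, Pool.Agent.TH115.GD.cub (Pool.Agent.Y702.G.sh W) x ≠ 0)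
    {m : ℕ} [NeZero m]
    (hm : ∀ l : ℕ, l.Prime → l ∣ m → ¬ (l : ℤ) ∣ 2 * W.Δ ∧ Odd ((l : ℤ) - pts W (ZMod l)))
    {g n : ℕ} (hg : 0 < g) (ρ : (ZMod m)ˣ →* GL (Fin g) ℤ) (hρ : ∀ u, ρ u ^ (2 ^ n) = 1)
    (hsp : ∀ p : ℕ, p.Prime → (p : ℤ) ∣ 2 * W.Δ → ∀ u : (ZMod m)ˣ, (u : ZMod m) = p → ρ u = 1)
    (hre : 0 < W.Δ → ρ (-1) = 1)
    (κ : Gal ℚ →* (ZMod m)ˣ)
    (hκ : ∀ (σ : Gal ℚ) (ζ : AlgebraicClosure ℚ), ζ ^ m = 1 → σ ζ = ζ ^ ((κ σ : ZMod m)).val) :
    (Finite (ptsA W (ρ.comp κ)) ∧ ShaTrivial W (ρ.comp κ)) ↔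
      (Finite (base W ℚ).toAffine.Point ∧ Sha2 W = {0}) := by
  rw [← sha_iff]
  constructor
  · rintro ⟨hA, hS⟩
    have hS' : ∀ f, Pool.Agent.Y702.A.IsShaCocA W (ρ.comp κ) f → f + f = 0 →
        Pool.Agent.Y702.A.IsCobA W (ρ.comp κ) f := by
      intro f hf hff
      have h1 : Pool.Agent.Y702.A.IsCobA W (ρ.comp κ) (2 ^ 1 • f) := by
        have h2 : 2 ^ 1 • f = 0 := by rw [pow_one, two_nsmul, hff]
        rw [h2]
        exact (Pool.Agent.Y702.A.cobA W (ρ.comp κ)).zero_mem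
      exact hS f hf 1 h1
    have hsel := Pool.Agent.J6H27.TP.selT_of_selQ (Pool.Agent.J6H27.TP.selQ_of_A hΔ hnr hm hg ρ hρ
      hsp hre κ hκ hA hS')
    exact ⟨Pool.Agent.R425.P.finite_of_selT W hΔ hsel,
      fun s hs => Pool.Agent.R425.G.sha_two W hΔ hsel s hs⟩
  · intro hE
    have hT := Pool.Agent.J6H27.TP.triv_of_E W hΔ hnr hm ρ hρ hsp hre hE
    obtain ⟨a1, -, a3⟩ := Pool.Agent.Y702.A.alg_lib hΔ ρ hρ κ hκ hT
    exact ⟨a1.1, fun f hf k hk => Pool.Agent.Y702.A.sha_coc (ρ.comp κ) a3 f hf k hk⟩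

/-- the volume -/
lemma vol_eq (W : WeierstrassCurve ℤ) {m g : ℕ} (ρ : (ZMod m)ˣ →* GL (Fin g) ℤ) :
    0 < √(cond ρ : ℝ) ∧ Vinf ρ W * ∏ p ∈ W.Δ.natAbs.primeFactors, bad ρ W p =
      Pool.Agent.Y702.A.V ρ W / √(cond ρ : ℝ) := by
  constructor
  · apply Real.sqrt_pos.2
    have h1 : 0 < cond ρ := Finset.prod_pos fun l hl =>
      Nat.pow_pos (Nat.prime_of_mem_primeFactors hl).pos
    exact_mod_cast h1
  · show realPeriod W ^ Module.finrank ℤ (fixed ρ (Subgroup.zpowers (-1))) *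
      (complexPeriod W / realPeriod W) ^
        (g - Module.finrank ℤ (fixed ρ (Subgroup.zpowers (-1)))) / √(cond ρ : ℝ) *
          ∏ p ∈ W.Δ.natAbs.primeFactors, bad ρ W p =
      (realPeriod W ^ Module.finrank ℤ (fixed ρ (Subgroup.zpowers (-1))) *
      (complexPeriod W / realPeriod W) ^
        (g - Module.finrank ℤ (fixed ρ (Subgroup.zpowers (-1)))) *
          ∏ p ∈ W.Δ.natAbs.primeFactors, bad ρ W p) / √(cond ρ : ℝ)
    ring

/-- the value for `A` -/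
lemma val_A (W : WeierstrassCurve ℤ) {m g : ℕ} (ρ : (ZMod m)ˣ →* GL (Fin g) ℤ)
    (κ : Gal ℚ →* (ZMod m)ˣ) (h1 : Odd (Nat.card (torsA W (ρ.comp κ))))
    (h2 : Odd (Nat.card (torsA W (((contra g).comp ρ).comp κ)))) {L : ℂ → ℂ}
    (hL1 : Differentiable ℂ L)
    (hL2 : ∀ s : ℂ, 3 / 2 < s.re → HasProd (fun p : Nat.Primes =>
      if ((p : ℕ) : ℤ) ∣ m * W.Δ then 1 else (P ρ W p (((p : ℕ) : ℂ) ^ (-s)))⁻¹) (L s)) {r : ℚ}
    (hr : L 1 * √(cond ρ : ℝ) = r * (Pool.Agent.Y702.A.V ρ W : ℝ)) (hr2 : Odd r.den) {s : ℤ}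
    (hr3 : Odd r.num ↔ Odd s) :
    ∃ x : ℚ, HasValueA W ρ κ x ∧ Odd x.den ∧ (Odd x.num ↔ Odd s) := by
  obtain ⟨hpos, hV⟩ := vol_eq W ρ
  have hLval : L 1 = r * ((Vinf ρ W * ∏ p ∈ W.Δ.natAbs.primeFactors, bad ρ W p : ℝ) : ℂ) := by
    have hc : ((√(cond ρ : ℝ) : ℝ) : ℂ) ≠ 0 := by exact_mod_cast hpos.ne'
    rw [hV, Complex.ofReal_div, ← mul_div_assoc, eq_div_iff hc]
    exact hr
  generalize hv : (Vinf ρ W * ∏ p ∈ W.Δ.natAbs.primeFactors, bad ρ W p : ℝ) = v at hLval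
  generalize hn1 : Nat.card (torsA W (ρ.comp κ)) = n1 at h1
  generalize hn2 : Nat.card (torsA W (((contra g).comp ρ).comp κ)) = n2 at h2
  obtain ⟨h4, h3⟩ := odd_mul_rat r hr2 ((n1 * n2 : ℕ) : ℤ) (by
    rw [Int.odd_coe_nat]
    exact h1.mul h2)
  refine ⟨_, ⟨L, hL1, hL2, ?_⟩, h4, h3.trans hr3⟩
  rw [hn1, hn2, ← Complex.ofReal_mul, hv, hLval]
  push_cast
  ring

/-- the value for `E` -/
lemma val_E (W : WeierstrassCurve ℤ) (h1 : Odd (Nat.card (tors ℚ W))) {L : ℂ → ℂ}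
    (hL1 : Differentiable ℂ L)
    (hL2 : ∀ s : ℂ, 3 / 2 < s.re → HasProd (fun p : Nat.Primes =>
      (1 - (((((p : ℕ) : ℤ) - pts W (ZMod p) : ℤ)) : ℂ) * ((p : ℕ) : ℂ) ^ (-s) +
        if ((p : ℕ) : ℤ) ∣ W.Δ then 0 else ((p : ℕ) : ℂ) ^ (1 - 2 * s))⁻¹) (L s)) {s t : ℤ}
    (ht : Odd t) {Op : ℝ} (hval : (t : ℂ) * L 1 = s * (2 * Op)) (hreal : realPeriod W = 2 * Op) :
    ∃ x : ℚ, HasValue W x ∧ Odd x.den ∧ (Odd x.num ↔ Odd s) := by
  generalize hn1 : Nat.card (tors ℚ W) = n1 at h1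
  obtain ⟨h2, h3⟩ := Pool.Agent.R425.G.odd_frac (s * (n1 : ℤ) ^ 2) t ht
  refine ⟨_, ⟨L, hL1, hL2, ?_⟩, h2, h3.trans ?_⟩
  · have ht0 : (t : ℂ) ≠ 0 := by
      have h4 : t ≠ 0 := by
        rintro rfl
        exact absurd ht (by decide)
      exact_mod_cast h4
    rw [hreal, hn1]
    push_cast
    rw [div_mul_eq_mul_div, eq_div_iff ht0]
    linear_combination (n1 : ℂ) ^ 2 * hval
  · rw [Int.odd_mul]
    have h3 : Odd ((n1 : ℤ) ^ 2) := Odd.pow (by exact_mod_cast h1)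
    exact ⟨fun h => h.1, fun h => ⟨h, h3⟩⟩

lemma uniq_E (W : WeierstrassCurve ℤ) (h0 : realPeriod W ≠ 0) {x y : ℚ} (hx : HasValue W x)
    (hy : HasValue W y) : y = x := by
  obtain ⟨L1, d1, p1, e1⟩ := hy
  obtain ⟨L2, d2, p2, e2⟩ := hx
  have h : L1 = L2 := Pool.Agent.J6H27.TP.entire_uniq d1 d2 p1 p2
  rw [h, e2] at e1
  have h1 : (realPeriod W : ℂ) ≠ 0 := by exact_mod_cast h0
  have h2 := mul_right_cancel₀ h1 e1
  exact_mod_cast h2.symm

lemma uniq_A (W : WeierstrassCurve ℤ) {m g : ℕ} (ρ : (ZMod m)ˣ →* GL (Fin g) ℤ)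
    (κ : Gal ℚ →* (ZMod m)ˣ) (h0 : Pool.Agent.Y702.A.V ρ W ≠ 0) {x y : ℚ}
    (hx : HasValueA W ρ κ x) (hy : HasValueA W ρ κ y) : y = x := by
  obtain ⟨L1, d1, p1, e1⟩ := hy
  obtain ⟨L2, d2, p2, e2⟩ := hx
  have h : L1 = L2 := Pool.Agent.J6H27.TP.entire_uniq d1 d2 p1 p2
  obtain ⟨hpos, hV⟩ := vol_eq W ρ
  have hVne : (Vinf ρ W : ℂ) * ((∏ p ∈ W.Δ.natAbs.primeFactors, bad ρ W p : ℝ) : ℂ) ≠ 0 := by
    have h1 : Vinf ρ W * ∏ p ∈ W.Δ.natAbs.primeFactors, bad ρ W p ≠ 0 := by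
      rw [hV]
      exact div_ne_zero h0 hpos.ne'
    exact_mod_cast h1
  rw [h, e2] at e1
  have h2 := mul_right_cancel₀ hVne e1
  exact_mod_cast h2.symm

end proof

/-- **Main theorem.** Let `W` be a Weierstrass equation with integral coefficients and discriminant
`Δ ≠ 0` (minimal, for the formulas to be those of the conjecture); let `f` be the newform of `W`, of a level
`N` with the same prime divisors as `Δ`; let `Λ` be the period lattice of the differential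
`dx / (2 y + a₁ x + a₃)` of `W` (the lattice with `g₂ = c₄ / 12`, `g₃ = c₆ / 216`), and assume that `c` times
the periods of `2 π i f(z) dz` on `Γ₀(N)` are in `Λ` for an odd `c` (the Manin constant is odd).  Assume that
`a_q` is odd for some prime `q` that does not divide `2 Δ`.  Let `m` be squarefree, with `l ∤ 2 Δ` and `a_l`
odd for all primes `l ∣ m`; let `ρ` be an action of `(ℤ/m)ˣ` on `M = ℤ^g`, `g > 0`, through a 2-group, such
that the primes that divide `2 Δ` act trivially, and such that the complex conjugation `-1` acts trivially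
if `Δ > 0`.  Let `κ` be the cyclotomic character, and `A = E ⊗ M` with the action `ρ ∘ κ` on `M`. -/
theorem result {N : ℕ} [NeZero N] (W : WeierstrassCurve ℤ) (hΔ : W.Δ ≠ 0)
    (f : CuspForm (Gamma0 N : Subgroup (GL (Fin 2) ℝ)) 2) (hf : IsNewform W N f)
    (Λ : PeriodPair) (hg₂ : Λ.g₂ = (W.c₄ : ℂ) / 12) (hg₃ : Λ.g₃ = (W.c₆ : ℂ) / 216)
    (hman : ∃ c : ℤ, Odd c ∧ ∀ γ ∈ Gamma0 N, ∀ z : ℍ,
      (c : ℂ) * (prim f ((γ • z : ℍ) : ℂ) - prim f (z : ℂ)) ∈ Λ.lattice)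
    (q : ℕ) (hq : q.Prime) (hqΔ : ¬ (q : ℤ) ∣ 2 * W.Δ) (hqo : Odd ((q : ℤ) - pts W (ZMod q)))
    (m : ℕ) [NeZero m] (hsq : Squarefree m)
    (hm : ∀ l : ℕ, l.Prime → l ∣ m → ¬ (l : ℤ) ∣ 2 * W.Δ ∧ Odd ((l : ℤ) - pts W (ZMod l)))
    (g n : ℕ) (hg : 0 < g) (ρ : (ZMod m)ˣ →* GL (Fin g) ℤ) (hρ : ∀ u, ρ u ^ (2 ^ n) = 1)
    (hsp : ∀ p : ℕ, p.Prime → (p : ℤ) ∣ 2 * W.Δ → ∀ u : (ZMod m)ˣ, (u : ZMod m) = p → ρ u = 1)
    (hre : 0 < W.Δ → ρ (-1) = 1)
    (κ : Gal ℚ →* (ZMod m)ˣ)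
    (hκ : ∀ (σ : Gal ℚ) (ζ : AlgebraicClosure ℚ), ζ ^ m = 1 → σ ζ = ζ ^ ((κ σ : ZMod m)).val) :
    (Odd (Nat.card (tors ℚ W)) ∧ Odd (Nat.card (torsA W (ρ.comp κ))) ∧
      Odd (Nat.card (torsA W (((contra g).comp ρ).comp κ)))) ∧
    (∃ x₀ x : ℚ, HasValue W x₀ ∧ HasValueA W ρ κ x ∧ Odd x₀.den ∧ Odd x.den ∧
      (Odd x.num ↔ Odd x₀.num)) ∧
    ((Finite (ptsA W (ρ.comp κ)) ∧ ShaTrivial W (ρ.comp κ)) ↔
      (Finite (base W ℚ).toAffine.Point ∧ Sha2 W = {0})) ∧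
    (BSDModTwoA W ρ κ ↔ BSDModTwo W) := by
  have hfI := isForm hf
  have hnr : ∀ x : ℚ, Pool.Agent.TH115.GD.cub (Pool.Agent.Y702.G.sh W) x ≠ 0 :=
    Pool.Agent.R425.G.no_root_Q W hq hqΔ hqo
  have htQ : Odd (Nat.card (tors ℚ W)) := Pool.Agent.R425.G.tors_odd W hΔ hnr
  have htA : Odd (Nat.card (torsA W (ρ.comp κ))) :=
    tors_part W hΔ hnr ρ hρ κ hκ (MonoidHom.id _)
  have htA' : Odd (Nat.card (torsA W (((contra g).comp ρ).comp κ))) :=
    tors_part W hΔ hnr ρ hρ κ hκ (contra g)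
  have halg := alg_part W hΔ hnr hm hg ρ hρ hsp hre κ hκ
  obtain ⟨cc, hcc, hman'⟩ := hman
  obtain ⟨Op, Om, s, t, hOp, hOm, ht, hval, hreal, hcomp, hVC⟩ :=
    Pool.Agent.J6H27.TP.an_data hΔ hfI Λ hg₂ hg₃ hcc (by
      rintro x ⟨γ, rfl⟩
      have h1 := Pool.Agent.Y18.BSD.per_spec f (Additive.toMul γ) UpperHalfPlane.I
      have h2 := hman' _ (Additive.toMul γ).2 UpperHalfPlane.I
      have h3 : prim f ((((Additive.toMul γ : Gamma0 N) : SL(2, ℤ)) • UpperHalfPlane.I : ℍ) : ℂ) -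
          prim f (UpperHalfPlane.I : ℂ) = Pool.Agent.Y18.BSD.per f (Additive.toMul γ) := by
        have h4 : prim f ((((Additive.toMul γ : Gamma0 N) : SL(2, ℤ)) • UpperHalfPlane.I : ℍ) : ℂ) =
            prim f (UpperHalfPlane.I : ℂ) + Pool.Agent.Y18.BSD.per f (Additive.toMul γ) := h1
        rw [h4]
        ring
      rw [h3] at h2
      exact h2) hq hqΔ hqo
  have hmodd : Odd m := by
    rw [← Nat.not_even_iff_odd, even_iff_two_dvd]
    intro h
    exact (hm 2 Nat.prime_two h).1 (Dvd.intro _ rfl)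
  have hcoN : Nat.Coprime m N := by
    rw [Nat.coprime_iff_gcd_eq_one]
    by_contra h
    obtain ⟨l, hl, hl2⟩ := Nat.exists_prime_and_dvd h
    have h3 := (hfI.level l hl).1 (hl2.trans (Nat.gcd_dvd_right _ _))
    exact (hm l hl (hl2.trans (Nat.gcd_dvd_left _ _))).1 (Dvd.dvd.mul_left h3 2)
  obtain ⟨hV0, L, hL1, hL2, r, hr1, hr2, hr3⟩ := Pool.Agent.J6H27.TP.lib_anP
    Pool.Agent.Y153.AREP.s_rep hΔ hfI hOp hOm m hsq hm
    (hVC m hsq hmodd hcoN (fun l hl h => (hm l hl h).2)) hg ρ hρ hre hreal hcomp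
  have hreal' : realPeriod W = 2 * Op := hreal
  obtain ⟨x, hx, hxd, hxn⟩ := val_A W ρ κ htA htA' hL1 hL2 hr1 hr2 hr3
  obtain ⟨L₀, hL₀1, hL₀2, hL₀3⟩ := Pool.Agent.J6H27.TP.exists_LP hfI
  rw [← hL₀3] at hval
  obtain ⟨x₀, hx₀, hx₀d, hx₀n⟩ := val_E W htQ hL₀1 hL₀2 ht hval hreal'
  have hxx : Odd x.num ↔ Odd x₀.num := hxn.trans hx₀n.symm
  have hTam : Odd (Tam W ^ g) ↔ Odd (Tam W) := Nat.odd_pow_iff hg.ne'
  have hr0 : realPeriod W ≠ 0 := by
    rw [hreal']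
    positivity
  refine ⟨⟨htQ, htA, htA'⟩, ⟨x₀, x, hx₀, hx, hx₀d, hxd, hxx⟩, halg, ?_, ?_⟩
  · rintro ⟨y, hy, hyd, hyn⟩
    rw [uniq_A W ρ κ hV0 hx hy, hTam, ← and_assoc, halg, hxx, and_assoc] at hyn
    exact ⟨x₀, hx₀, hx₀d, hyn⟩
  · rintro ⟨y, hy, hyd, hyn⟩
    rw [uniq_E W hr0 hx₀ hy] at hyn
    refine ⟨x, hx, hxd, ?_⟩
    rw [hTam, ← and_assoc, halg, hxx, and_assoc]
    exact hyn

end Pool.Agent.Results.MP_dfae13_nt.TensorFormulaModTwo
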