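import Pool.Agent.J6H36.PB.ESt
import Pool.Agent.J6H36.PB.EFin

/-!
# The 3-part of the Birch and Swinnerton-Dyer formula for a positive proportion of twists

`K = ℚ(w)`, `E : y² + y = x³`. For a tuple of Eisenstein primes `π j`, `j < m`, and characters
`lam j` modulo `π j` of exact order `3 ^ k`, let `A` be the twist of `E ⊗ ℤ[ζ]`, `ζ` of order
`3 ^ k`, by `χ = ∏ lam j`; its dimension is `3 ^ (k - 1)`. The theorem fixes the number `m` of the
primes, the exponents `e j` with which `lam j ^ 3 ^ (k - 1)` is a power of the cubic residue symbol,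
and the largest order `3 ^ N` of the characters. It counts the tuples of distinct primes
`π j = 1 (mod 3)` of norm at most `X` and congruent to `1` modulo `3 ^ (N + 1)` with
`∏ π j ^ e j` not congruent to `1` modulo `9`: there are at least `c (X / log X) ^ m` of them, and
for a proportion of at least `∏ (1 - 3 ^ -(2 i + 1)) - ε`, `i < m / 2`, of them, so for more than
`63.9` percent, the formula holds for **all** the characters of order `3 ^ k`, `2 ≤ k ≤ N`: the
`L`-functions are entire, `L(A, 1)` is `Ω ^ (2 * 3 ^ (k - 1)) 3 ^ (m - 1)` up to a unit above `3`,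
`A(K)` has order `3` and the `3`-primary part of `Ш(A / K)` is zero.

The definitions are in `Pool.Agent.Y715.T.St` and `Pool.Agent.J6H36.PB.ESt`.
-/

open Pool.Agent.Y715.T.St Pool.Agent.J6H36.PB.ESt
open Filter

/-- The `3`-part of the formula for a positive proportion of the tuples of primes. -/
theorem Pool.Agent.Results.MP_dfae13_nt.ThreePartProportion.result (N m : ℕ) (hN : 2 ≤ N)
    (hm : 1 ≤ m) (e : Fin m → ZMod 3) (he : ∀ j, e j ≠ 0) :
    -- there are many tuples
    (∀ X, (Tuples N e X).Finite) ∧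
    (∃ c : ℝ, 0 < c ∧ ∀ᶠ X : ℕ in atTop, c * (X / Real.log X) ^ m ≤ (Tuples N e X).ncard) ∧
    -- the proportion of those for which the formula holds for all the characters
    (∀ ε : ℝ, 0 < ε → ∀ᶠ X : ℕ in atTop,
      (∏ i ∈ Finset.range (m / 2), (1 - (1 / 3 : ℝ) ^ (2 * i + 1)) - ε) * (Tuples N e X).ncard ≤
        {π ∈ Tuples N e X | ∀ k, 2 ≤ k → k ≤ N →
          (∃ lam : ∀ j, MulChar (Eis ⧸ Ideal.span {π j}) ℂ, Admissible k e lam) ∧
          ∀ lam : ∀ j, MulChar (Eis ⧸ Ideal.span {π j}) ℂ, Admissible k e lam →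
            ∀ ζ : ℂ, ζ ^ 3 ^ (k - 1) = omega → BSDThree k ζ lam}.ncard) ∧
    0.639 < ∏ i ∈ Finset.range (m / 2), (1 - (1 / 3 : ℝ) ^ (2 * i + 1)) :=
  Pool.Agent.J6H36.PB.main_three N m hN hm e he
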