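import Pool.Agent.J6H36.PB.GSt
import Pool.Agent.J6H36.PB.GFin

/-!
# The 2-part of the Birch and Swinnerton-Dyer formula for a positive proportion of twists

`K = ℚ(i)`, `E : y² = x³ - x`. For a tuple of Gaussian primes `π j`, `j < m`, and characters
`lam j` modulo `π j` of exact order `2 ^ k`, let `A` be the twist of `E ⊗ ℤ[ζ]`, `ζ` of order
`2 ^ k`, by `χ = ∏ lam j`; its dimension is `2 ^ (k - 2)`. The theorem fixes the number `m` of the
primes and the largest order `2 ^ N` of the characters. It counts the tuples of distinct primes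
`π j = 1 (mod 4)` of norm at most `X` and congruent to `1` modulo `2 ^ (N + 2)` with `∏ π j` not
congruent to `1` modulo `4 (1 + i)`: there are at least `c (X / log X) ^ m` of them, and for a
proportion of at least `∏ (1 - 2 ^ -(2 i + 1)) - ε`, `i < m / 2`, of them, so for more than `41.9`
percent, the formula holds for **all** the characters of order `2 ^ k`, `3 ≤ k ≤ N`: the
`L`-functions are entire, `L(A, 1)` is `Ω ^ (2 ^ (k - 1)) 2 ^ (m - 1)` up to a unit above `2`,
`A(K)` has order `2` and the `2`-primary part of `Ш(A / K)` is zero.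

The definitions are in `Pool.Agent.Y715.St` and `Pool.Agent.J6H36.PB.GSt`.
-/

open Pool.Agent.Y715.St Pool.Agent.J6H36.PB.GSt
open Filter

/-- The `2`-part of the formula for a positive proportion of the tuples of primes. -/
theorem Pool.Agent.Results.MP_dfae13_nt.TwoPartProportion.result (N m : ℕ) (hN : 3 ≤ N)
    (hm : 1 ≤ m) :
    -- there are many tuples
    (∀ X, (Tuples m N X).Finite) ∧
    (∃ c : ℝ, 0 < c ∧ ∀ᶠ X : ℕ in atTop, c * (X / Real.log X) ^ m ≤ (Tuples m N X).ncard) ∧
    -- the proportion of those for which the formula holds for all the characters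
    (∀ ε : ℝ, 0 < ε → ∀ᶠ X : ℕ in atTop,
      (∏ i ∈ Finset.range (m / 2), (1 - (1 / 2 : ℝ) ^ (2 * i + 1)) - ε) * (Tuples m N X).ncard ≤
        {π ∈ Tuples m N X | ∀ k, 3 ≤ k → k ≤ N →
          (∃ lam : ∀ j, MulChar (GaussianInt ⧸ Ideal.span {π j}) ℂ,
            ∀ j, orderOf (lam j) = 2 ^ k) ∧
          ∀ lam : ∀ j, MulChar (GaussianInt ⧸ Ideal.span {π j}) ℂ,
            (∀ j, orderOf (lam j) = 2 ^ k) →
            ∀ ζ : ℂ, ζ ^ 2 ^ (k - 2) = Complex.I → BSDTwo k ζ lam}.ncard) ∧
    0.4194 < ∏ i ∈ Finset.range (m / 2), (1 - (1 / 2 : ℝ) ^ (2 * i + 1)) :=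
  Pool.Agent.J6H36.PB.main_two N m hN hm
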